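import Pool.Agent.Helper6.VC.UFinal

/-!
# The perfect set form of Vaught's conjecture: finite boundaries or replicable components

For every countable relational language, every first-order theory `T` and every sentence `φ` of
`L_{omega_1, omega}` with the following property, the models of `T` and `φ` on `ℕ` fall into
countably many isomorphism types or there are perfectly many of them: for some countable set `Ψ` of
formulas, whenever `A` is a `Ψ`-elementary submodel of a countable model `S` and `c` is in `S` but
not in `A`, the component of `c` in the Gaifman graph of `S` outside `A` has finitely many
neighbours in `A`, or the component of `c` outside some finite subset `Q` of `A` is replicable.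

The file `Pool/Agent/Helper6/VC/UFinal.lean` proves that the hypothesis holds for every class
closed under infinite disjoint powers, and for every class with finite boundaries; the file
`Pool/Agent/Helper6/VC/Cover.lean` proves that a class has finite boundaries when no countable
model has a Gaifman graph containing a subdivision of the infinite complete graph, and more
generally when no countable model contains a fat one.
-/

set_option autoImplicit false

namespace Pool.Agent.Results.MP_5df2c5_lc.ReplicableComponents

open Pool.Agent.Helper5.DU Pool.Agent.Helper6.Str Pool.Agent.Helper79.VC Pool.Agent.Helper6.VC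

/-- **Vaught's conjecture (perfect set form) for classes in which the components outside an
elementary submodel have finite boundaries or are replicable over a finite set.** -/
theorem result (L : FirstOrder.Language.{0, 0}) (hc : Countable L.Symbols)
    (hrel : ∀ n, IsEmpty (L.Functions n)) (T : L.Theory) (φ : FmI L 0)
    (Ψ : ℕ → (n : ℕ) × FmI L n) (h : FiniteOrReplicable T φ Ψ) :
    (∃ g : ℕ → L.Structure ℕ, ∀ S : L.Structure ℕ, IsMod T φ S →
        ∃ n : ℕ, Nonempty (@FirstOrder.Language.Equiv L ℕ ℕ S (g n))) ∨
    (∃ f : (ℕ → Bool) → L.Structure ℕ, (∀ x : ℕ → Bool, IsMod T φ (f x)) ∧
        (∀ x y : ℕ → Bool,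
            Nonempty (@FirstOrder.Language.Equiv L ℕ ℕ (f x) (f y)) → x = y) ∧
        (∀ (n : ℕ) (R : L.Relations n) (a : Fin n → ℕ),
            IsClopen {x : ℕ → Bool | @FirstOrder.Language.Structure.RelMap L ℕ (f x) n R a})) :=
  dichotomy_of_finOrRep hc T φ Ψ h

end Pool.Agent.Results.MP_5df2c5_lc.ReplicableComponents
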